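import Mathlib

/-!
# MP_c0e3d8_co, Q1 (Levé–Richomme): morphisms generating quasiperiodic words are weakly quasiperiodic

Let `f` generate a quasiperiodic word `f^ω(a)` with `f(a)` not a power of `a`. Then some infinite
word `u` that is not quasiperiodic has a quasiperiodic image `f(u)`.
-/

set_option autoImplicit false

namespace Pool.Agent.Results.MP_c0e3d8_co.WeaklyQuasiperiodic

variable {A : Type}

/-- The prefix of length `n` of an infinite word. -/
def pre (w : ℕ → A) (n : ℕ) : List A := (List.range n).map w

/-- The finite word `x` covers the infinite word `w`: every position of `w` lies inside some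
occurrence of `x`. -/
def Covers (x : List A) (w : ℕ → A) : Prop :=
  ∀ n, ∃ s ≤ n, n < s + x.length ∧ ∀ i (h : i < x.length), w (s + i) = x[i]

/-- An infinite word is quasiperiodic if some finite word covers it. -/
def Quasiperiodic (w : ℕ → A) : Prop := ∃ x : List A, Covers x w

/-- The action of the morphism `f` on finite words. -/
def ap (f : A → List A) (l : List A) : List A := l.flatMap f

/-- The image `f(w)` of the infinite word `w` is the infinite word `v`. -/
def IsImage (f : A → List A) (w v : ℕ → A) : Prop :=
  (∀ n, ap f (pre w n) = pre v (ap f (pre w n)).length) ∧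
    ∀ N, ∃ n, N ≤ (ap f (pre w n)).length

/-- `f` generates the infinite word `w = f^ω(a)`. -/
def Generates (f : A → List A) (a : A) (w : ℕ → A) : Prop :=
  (∃ u, f a = a :: u) ∧ (∀ N, ∃ n, N ≤ ((ap f)^[n] [a]).length) ∧
    ∀ n, (ap f)^[n] [a] = pre w ((ap f)^[n] [a]).length

/-- `f` is weakly quasiperiodic on infinite words. -/
def WeaklyQP (f : A → List A) : Prop :=
  ∃ u v : ℕ → A, ¬ Quasiperiodic u ∧ IsImage f u v ∧ Quasiperiodic v

section lists

variable (a : A)

/-- `l` is a prefix of `w`. -/
def IsPre (l : List A) (w : ℕ → A) : Prop := ∀ i < l.length, l.getD i a = w i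

theorem pre_length (w : ℕ → A) (n : ℕ) : (pre w n).length = n := by simp [pre]

theorem pre_getD (w : ℕ → A) (n i : ℕ) (h : i < n) : (pre w n).getD i a = w i := by
  rw [List.getD_eq_getElem _ _ (by rw [pre_length]; exact h)]
  simp [pre]

theorem isPre_iff (l : List A) (w : ℕ → A) : IsPre a l w ↔ l = pre w l.length := by
  constructor
  · intro h
    apply List.ext_getElem (by rw [pre_length])
    intro i h1 h2
    have := h i h1
    rw [List.getD_eq_getElem _ _ h1] at this
    rw [this]
    simp [pre]
  · intro h i hi
    rw [h, pre_getD a w _ i hi]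

theorem IsPre.left {l l' : List A} {w : ℕ → A} (h : IsPre a (l ++ l') w) : IsPre a l w := by
  intro i hi
  rw [← h i (by rw [List.length_append]; omega), List.getD_append _ _ _ _ hi]

theorem IsPre.right {l l' : List A} {w : ℕ → A} (h : IsPre a (l ++ l') w) (i : ℕ)
    (hi : i < l'.length) : l'.getD i a = w (l.length + i) := by
  rw [← h (l.length + i) (by rw [List.length_append]; omega),
    List.getD_append_right _ _ _ _ (by omega)]
  congr 1
  omega

theorem IsPre.exists_append {l l' : List A} {w : ℕ → A} (h : IsPre a l w) (h' : IsPre a l' w)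
    (hl : l.length ≤ l'.length) : ∃ t, l' = l ++ t := by
  refine ⟨l'.drop l.length, ?_⟩
  rw [isPre_iff] at h h'
  conv_lhs => rw [← List.take_append_drop l.length l']
  congr 1
  rw [h', h]
  apply List.ext_getElem
  · simp [pre_length, hl]
  · intro i h1 h2
    simp [pre]

theorem covers_iff (x : List A) (w : ℕ → A) : Covers x w ↔
    ∀ n, ∃ s ≤ n, n < s + x.length ∧ ∀ i < x.length, w (s + i) = x.getD i a := by
  constructor
  · intro h n
    obtain ⟨s, h1, h2, h3⟩ := h n
    exact ⟨s, h1, h2, fun i hi => by rw [h3 i hi, List.getD_eq_getElem _ _ hi]⟩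
  · intro h n
    obtain ⟨s, h1, h2, h3⟩ := h n
    exact ⟨s, h1, h2, fun i hi => by rw [h3 i hi, List.getD_eq_getElem _ _ hi]⟩

/-- `x` occurs at position `s` in the list `l`. -/
def Occ (x l : List A) (s : ℕ) : Prop :=
  s + x.length ≤ l.length ∧ ∀ i < x.length, l.getD (s + i) a = x.getD i a

end lists

section morphism

variable (f : A → List A)

theorem ap_append (l l' : List A) : ap f (l ++ l') = ap f l ++ ap f l' := by
  simp [ap]

theorem iter_append (n : ℕ) (l l' : List A) :
    (ap f)^[n] (l ++ l') = (ap f)^[n] l ++ (ap f)^[n] l' := by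
  induction n generalizing l l' with
  | zero => rfl
  | succ n ih => rw [Function.iterate_succ_apply, ap_append, ih]; rfl

theorem iter_nil (n : ℕ) : (ap f)^[n] ([] : List A) = [] := by
  induction n with
  | zero => rfl
  | succ n ih => rw [Function.iterate_succ_apply]; exact ih

variable {f} {a : A}

theorem head_iter (hf : ∃ u, f a = a :: u) (n : ℕ) (l : List A) :
    ∃ u, (ap f)^[n] (a :: l) = a :: u := by
  induction n generalizing l with
  | zero => exact ⟨l, rfl⟩
  | succ n ih =>
    obtain ⟨u, hu⟩ := hf
    rw [Function.iterate_succ_apply]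
    have : ap f (a :: l) = a :: (u ++ ap f l) := by simp [ap, hu]
    rw [this]
    exact ih _

theorem Generates.isPre_ap {w : ℕ → A} (h : Generates f a w) {l : List A} (hl : IsPre a l w) :
    IsPre a (ap f l) w := by
  obtain ⟨n, hn⟩ := h.2.1 l.length
  have h1 : IsPre a ((ap f)^[n] [a]) w := (isPre_iff a _ w).mpr (h.2.2 n)
  obtain ⟨t, ht⟩ := hl.exists_append a h1 hn
  have h2 : IsPre a ((ap f)^[n + 1] [a]) w := (isPre_iff a _ w).mpr (h.2.2 (n + 1))
  rw [Function.iterate_succ_apply', ht, ap_append] at h2
  exact h2.left a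

theorem Generates.isPre_iter {w : ℕ → A} (h : Generates f a w) (n : ℕ) {l : List A}
    (hl : IsPre a l w) : IsPre a ((ap f)^[n] l) w := by
  induction n with
  | zero => exact hl
  | succ n ih => rw [Function.iterate_succ_apply']; exact h.isPre_ap ih

end morphism

section eventually

variable (a : A)

/-- The infinite word `B₀ B₁ B₁ B₁ ...`. -/
def W (B₀ B₁ : List A) (i : ℕ) : A :=
  if i < B₀.length then B₀.getD i a else B₁.getD ((i - B₀.length) % B₁.length) a

theorem W_left (B₀ B₁ : List A) (i : ℕ) (h : i < B₀.length) : W a B₀ B₁ i = B₀.getD i a := by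
  simp [W, h]

theorem W_right (B₀ B₁ : List A) (j i : ℕ) (h : i < B₁.length) :
    W a B₀ B₁ (B₀.length + j * B₁.length + i) = B₁.getD i a := by
  unfold W
  rw [if_neg (by omega), show B₀.length + j * B₁.length + i - B₀.length = i + j * B₁.length by omega,
    Nat.add_mul_mod_self_right, Nat.mod_eq_of_lt h]

theorem W_isPre (B₀ B₁ : List A) (m : ℕ) :
    IsPre a (B₀ ++ (List.replicate m B₁).flatten) (W a B₀ B₁) := by
  induction m with
  | zero =>
    intro i hi
    simp only [List.replicate_zero, List.flatten_nil, List.append_nil] at hi ⊢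
    rw [W_left a _ _ _ hi]
  | succ m ih =>
    intro i hi
    have e : B₀ ++ (List.replicate (m + 1) B₁).flatten =
        (B₀ ++ (List.replicate m B₁).flatten) ++ B₁ := by
      rw [List.replicate_succ', List.flatten_append]
      simp
    rw [e] at hi ⊢
    rcases lt_or_ge i (B₀ ++ (List.replicate m B₁).flatten).length with h | h
    · rw [List.getD_append _ _ _ _ h]
      exact ih i h
    · rw [List.getD_append_right _ _ _ _ h]
      rw [List.length_append] at hi
      have hlen : (B₀ ++ (List.replicate m B₁).flatten).length = B₀.length + m * B₁.length := by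
        simp
      rw [hlen] at h hi ⊢
      obtain ⟨k, rfl⟩ := Nat.exists_eq_add_of_le h
      rw [W_right a _ _ _ _ (by omega)]
      congr 1
      omega

theorem W_image {f : A → List A} (B₀ B₁ : List A) (h1 : B₁ ≠ []) (h2 : ap f B₁ ≠ []) :
    IsImage f (W a B₀ B₁) (W a (ap f B₀) (ap f B₁)) := by
  have hap : ∀ m, ap f (B₀ ++ (List.replicate m B₁).flatten) =
      ap f B₀ ++ (List.replicate m (ap f B₁)).flatten := by
    intro m
    rw [ap_append]
    congr 1
    induction m with
    | zero => rfl
    | succ m ih => rw [List.replicate_succ, List.flatten_cons, ap_append, ih, List.replicate_succ,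
        List.flatten_cons]
  have hl1 : 0 < B₁.length := List.length_pos_iff.mpr h1
  have hl2 : 0 < (ap f B₁).length := List.length_pos_iff.mpr h2
  constructor
  · intro n
    rw [← isPre_iff a]
    have hlen : n ≤ (B₀ ++ (List.replicate n B₁).flatten).length := by
      simp only [List.length_append, List.length_flatten, List.map_replicate, List.sum_replicate,
        smul_eq_mul]
      nlinarith
    have h3 : IsPre a (pre (W a B₀ B₁) n) (W a B₀ B₁) := by
      rw [isPre_iff, pre_length]
    obtain ⟨t, ht⟩ := h3.exists_append a (W_isPre a B₀ B₁ n) (by rw [pre_length]; exact hlen)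
    have h4 := W_isPre a (ap f B₀) (ap f B₁) n
    rw [← hap, ht, ap_append] at h4
    exact h4.left a
  · intro N
    refine ⟨(B₀ ++ (List.replicate N B₁).flatten).length, ?_⟩
    have h3 := (isPre_iff a _ _).mp (W_isPre a B₀ B₁ N)
    rw [← h3, hap]
    simp only [List.length_append, List.length_flatten, List.map_replicate, List.sum_replicate,
      smul_eq_mul]
    nlinarith

/-- A criterion for `x` to cover `B₀ B₁ B₁ ...`. -/
theorem W_covers (x B₀ B₁ : List A) (hB : B₁ ≠ [])
    (h0 : ∀ p < B₀.length, ∃ s ≤ p, p < s + x.length ∧ Occ a x (B₀ ++ B₁) s)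
    (h1 : ∀ p < B₁.length, ∃ s ≤ p, p < s + x.length ∧ Occ a x (B₁ ++ B₁) s) :
    Covers x (W a B₀ B₁) := by
  have hl1 : 0 < B₁.length := List.length_pos_iff.mpr hB
  rw [covers_iff a]
  intro n
  rcases lt_or_ge n B₀.length with h | h
  · obtain ⟨s, hs, hs', hocc⟩ := h0 n h
    refine ⟨s, hs, hs', fun i hi => ?_⟩
    rw [← hocc.2 i hi]
    have h2 := W_isPre a B₀ B₁ 1
    simp only [List.replicate_one, List.flatten_singleton] at h2
    exact (h2 (s + i) (by have := hocc.1; omega)).symm
  · obtain ⟨m, rfl⟩ := Nat.exists_eq_add_of_le h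
    obtain ⟨s, hs, hs', hocc⟩ := h1 (m % B₁.length) (Nat.mod_lt _ hl1)
    have hm := Nat.div_add_mod m B₁.length
    rw [mul_comm] at hm
    refine ⟨B₀.length + (m / B₁.length) * B₁.length + s, by omega, by omega, fun i hi => ?_⟩
    rw [← hocc.2 i hi]
    have h3 := hocc.1
    rw [List.length_append] at h3
    rcases lt_or_ge (s + i) B₁.length with h4 | h4
    · rw [add_assoc, W_right a _ _ _ _ h4, List.getD_append _ _ _ _ h4]
    · obtain ⟨t, ht⟩ := Nat.exists_eq_add_of_le h4
      rw [List.getD_append_right _ _ _ _ h4,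
        show B₀.length + (m / B₁.length) * B₁.length + s + i =
          B₀.length + (m / B₁.length + 1) * B₁.length + t by rw [add_mul, one_mul]; omega,
        W_right a _ _ _ _ (by omega)]
      congr 1
      omega

/-- `a v₁ (a v₂)^ω` is not quasiperiodic if `v₁ ≠ v₂` do not contain `a`. -/
theorem W_not_quasi (v₁ v₂ : List A) (h1 : a ∉ v₁) (h2 : a ∉ v₂) (hne : v₁ ≠ v₂) :
    ¬ Quasiperiodic (W a (a :: v₁) (a :: v₂)) := by
  rintro ⟨y, hy⟩
  rw [covers_iff a] at hy
  set w := W a (a :: v₁) (a :: v₂) with hw
  have g1 : ∀ (v : List A), a ∉ v → ∀ i, i < v.length + 1 → ((a :: v).getD i a = a ↔ i = 0) := by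
    intro v hv i hi
    cases i with
    | zero => simp
    | succ i =>
      rw [List.getD_cons_succ, List.getD_eq_getElem _ _ (by omega)]
      simp only [Nat.succ_ne_zero, iff_false]
      intro h
      exact hv (h ▸ List.getElem_mem _)
  have w0 : w 0 = a := by rw [hw, W_left a _ _ _ (by simp)]; simp
  -- positions of `a`
  have wl : ∀ i, i < v₁.length + 1 → (w i = a ↔ i = 0) := by
    intro i hi
    rw [hw, W_left a _ _ _ (by simpa using hi)]
    exact g1 v₁ h1 i hi
  have wr : ∀ j i, i < v₂.length + 1 → w (v₁.length + 1 + j * (v₂.length + 1) + i) =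
      (a :: v₂).getD i a := by
    intro j i hi
    have := W_right a (a :: v₁) (a :: v₂) j i (by simpa using hi)
    simpa [hw] using this
  obtain ⟨s0, hs0, hs0', hs0''⟩ := hy 0
  obtain rfl : s0 = 0 := by omega
  have hy0 : 0 < y.length := by omega
  have ypre : ∀ i < y.length, y.getD i a = w i := by
    intro i hi; rw [← hs0'' i hi, zero_add]
  have ya : y.getD 0 a = a := by rw [ypre 0 hy0, w0]
  -- `|y| ≥ |r₁|`
  have L1 : v₁.length + 1 ≤ y.length := by
    obtain ⟨s, hs, hs', hs''⟩ := hy v₁.length
    have : w s = a := by have := hs'' 0 hy0; rwa [add_zero, ya] at this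
    rw [wl s (by omega)] at this
    omega
  have L2 : v₂.length + 1 ≤ y.length := by
    obtain ⟨s, hs, hs', hs''⟩ := hy (v₁.length + 1 + v₂.length)
    have h3 : w s = a := by have := hs'' 0 hy0; rwa [add_zero, ya] at this
    rcases lt_or_ge s (v₁.length + 1) with h | h
    · rw [wl s h] at h3
      omega
    · obtain ⟨t, rfl⟩ := Nat.exists_eq_add_of_le h
      have h4 := wr 0 t (by omega)
      rw [zero_mul, add_zero, h3] at h4
      have h5 := (g1 v₂ h2 t (by omega)).mp h4.symm
      omega
  -- a far occurrence
  obtain ⟨s, hs, hs', hs''⟩ := hy (v₁.length + 1 + y.length)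
  have hsa : w s = a := by have := hs'' 0 hy0; rwa [add_zero, ya] at this
  obtain ⟨t, ht⟩ := Nat.exists_eq_add_of_le (show v₁.length + 1 ≤ s by omega)
  have hdm := Nat.div_add_mod t (v₂.length + 1)
  have hml := Nat.mod_lt t (show 0 < v₂.length + 1 by omega)
  have hs2 : s = v₁.length + 1 + (t / (v₂.length + 1)) * (v₂.length + 1) + t % (v₂.length + 1) := by
    rw [mul_comm] at hdm
    omega
  have hmod : t % (v₂.length + 1) = 0 := by
    rw [hs2, wr _ _ hml] at hsa
    exact (g1 v₂ h2 _ hml).mp hsa
  rw [hmod, add_zero] at hs2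
  set j := t / (v₂.length + 1) with hj
  have agree : ∀ i < y.length, w (s + i) = w i := by
    intro i hi
    rw [hs'' i hi, ypre i hi]
  have agree2 : ∀ i < y.length, i < v₂.length + 1 → (a :: v₂).getD i a = w i := by
    intro i hi hi'
    rw [← agree i hi, hs2, wr j i hi']
  rcases lt_trichotomy v₁.length v₂.length with h | h | h
  · -- position `|v₁| + 1`
    have h3 := agree2 (v₁.length + 1) (by omega) (by omega)
    have h4 := wr 0 0 (by omega)
    rw [zero_mul, add_zero, add_zero] at h4
    rw [h4] at h3
    have h5 : (a :: v₂).getD 0 a = a := by simp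
    rw [h5] at h3
    have := (g1 v₂ h2 _ (by omega)).mp h3
    omega
  · apply hne
    apply List.ext_getElem h
    intro i hi1 hi2
    have h3 := agree2 (i + 1) (by omega) (by omega)
    rw [hw, W_left a _ _ _ (by simp; omega), List.getD_cons_succ, List.getD_cons_succ,
      List.getD_eq_getElem _ _ hi1, List.getD_eq_getElem _ _ hi2] at h3
    exact h3.symm
  · have h3 := agree (v₂.length + 1) (by omega)
    have h4 := wr (j + 1) 0 (by omega)
    have h6 : s + (v₂.length + 1) = v₁.length + 1 + (j + 1) * (v₂.length + 1) + 0 := by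
      rw [hs2]; ring
    rw [h6, h4] at h3
    have h5 : (a :: v₂).getD 0 a = a := by simp
    rw [h5] at h3
    have := (wl _ (by omega)).mp h3.symm
    omega

end eventually

section main

variable {f : A → List A} {a : A} {w : ℕ → A}

/-- `a v a` is a factor of `w` and `v` does not contain `a`. -/
def Ret (a : A) (w : ℕ → A) (v : List A) : Prop :=
  a ∉ v ∧ ∃ l, IsPre a (l ++ ((a :: v) ++ [a])) w

theorem Generates.zero (h : Generates f a w) : w 0 = a := by
  have h1 : IsPre a ((ap f)^[0] [a]) w := (isPre_iff a _ w).mpr (h.2.2 0)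
  have := h1 0 (by simp)
  simpa using this.symm

theorem block_cover (h : Generates f a w) {x : List A} (hx : Covers x w) (N : ℕ)
    (hN : x.length ≤ ((ap f)^[N] [a]).length) (v v' : List A) (hv : Ret a w v) :
    ∀ p < ((ap f)^[N] (a :: v)).length, ∃ s ≤ p, p < s + x.length ∧
      Occ a x ((ap f)^[N] (a :: v) ++ (ap f)^[N] (a :: v')) s := by
  obtain ⟨-, l, hl⟩ := hv
  rw [covers_iff a] at hx
  have e1 : (ap f)^[N] (a :: v) = (ap f)^[N] [a] ++ (ap f)^[N] v := by
    rw [← iter_append]; rfl
  have e2 : (ap f)^[N] (a :: v') = (ap f)^[N] [a] ++ (ap f)^[N] v' := by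
    rw [← iter_append]; rfl
  have h1 := h.isPre_iter N hl
  rw [iter_append, iter_append] at h1
  set F := (ap f)^[N] [a] with hF
  set B := (ap f)^[N] (a :: v) with hB
  set l' := (ap f)^[N] l with hl'
  have hFpre : IsPre a F w := (isPre_iff a _ w).mpr (h.2.2 N)
  obtain ⟨s0, hs0, hs0', hs0''⟩ := hx 0
  obtain rfl : s0 = 0 := by omega
  have hBF : F.length ≤ B.length := by rw [e1, List.length_append]; omega
  intro p hp
  rcases lt_or_ge p x.length with hpx | hpx
  · refine ⟨0, Nat.zero_le _, by omega, ?_, ?_⟩
    · rw [List.length_append]; omega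
    · intro i hi
      rw [List.getD_append _ _ _ _ (by omega), e1, List.getD_append _ _ _ _ (by omega), zero_add,
        hFpre i (by omega), ← hs0'' i hi, zero_add]
  · obtain ⟨s, hs, hs', hs''⟩ := hx (l'.length + p)
    obtain ⟨t, rfl⟩ := Nat.exists_eq_add_of_le (show l'.length ≤ s by omega)
    refine ⟨t, by omega, by omega, ?_, ?_⟩
    · rw [List.length_append, e2, List.length_append]; omega
    · intro i hi
      have h2 := IsPre.right a h1 (t + i) (by rw [List.length_append]; omega)
      rw [← add_assoc, hs'' i hi] at h2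
      rw [← h2, e2, ← List.append_assoc, List.getD_append]
      rw [List.length_append]; omega

theorem Covers.infinite_a (h : Generates f a w) {x : List A} (hx : Covers x w) (n : ℕ) :
    ∃ s, n ≤ s ∧ w s = a := by
  rw [covers_iff a] at hx
  obtain ⟨s0, hs0, hs0', hs0''⟩ := hx 0
  obtain rfl : s0 = 0 := by omega
  obtain ⟨s, hs, hs', hs''⟩ := hx (n + x.length)
  refine ⟨s, by omega, ?_⟩
  have h1 := hs'' 0 (by omega)
  have h2 := hs0'' 0 (by omega)
  rw [add_zero] at h1 h2
  rw [h1, ← h2, h.zero]

theorem next_return (hinf : ∀ n, ∃ s, n ≤ s ∧ w s = a) (p : ℕ) (hp : w p = a) :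
    ∃ v, Ret a w v ∧ (∀ i < v.length, v.getD i a = w (p + 1 + i)) ∧ w (p + 1 + v.length) = a := by
  classical
  have hex : ∃ d, w (p + 1 + d) = a := by
    obtain ⟨s, hs, hs'⟩ := hinf (p + 1)
    exact ⟨s - (p + 1), by rw [← hs']; congr 1; omega⟩
  set d := Nat.find hex with hd
  have hd1 : w (p + 1 + d) = a := Nat.find_spec hex
  have hd2 : ∀ i < d, w (p + 1 + i) ≠ a := fun i hi => Nat.find_min hex hi
  set v := (List.range d).map (fun i => w (p + 1 + i)) with hv
  have hvl : v.length = d := by simp [hv]
  have hvi : ∀ i < v.length, v.getD i a = w (p + 1 + i) := by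
    intro i hi
    rw [List.getD_eq_getElem _ _ hi]
    simp [hv]
  refine ⟨v, ⟨?_, pre w p, ?_⟩, hvi, by rw [hvl]; exact hd1⟩
  · intro hmem
    rw [hv, List.mem_map] at hmem
    obtain ⟨i, hi, hi'⟩ := hmem
    exact hd2 i (List.mem_range.mp hi) hi'
  · intro i hi
    simp only [List.length_append, List.length_cons, List.length_nil, pre_length, hvl] at hi
    rcases lt_or_ge i p with h1 | h1
    · rw [List.getD_append _ _ _ _ (by rw [pre_length]; exact h1), pre_getD a w p i h1]
    · rw [List.getD_append_right _ _ _ _ (by rw [pre_length]; exact h1), pre_length]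
      obtain ⟨k, rfl⟩ := Nat.exists_eq_add_of_le h1
      rw [Nat.add_sub_cancel_left]
      rcases lt_or_ge k (d + 1) with h2 | h2
      · rw [List.getD_append _ _ _ _ (by simp [hvl]; omega)]
        cases k with
        | zero => simp [hp]
        | succ k =>
          rw [List.getD_cons_succ, hvi k (by omega)]
          congr 1
          omega
      · obtain rfl : k = d + 1 := by omega
        rw [List.getD_append_right _ _ _ _ (by simp [hvl])]
        simp only [List.length_cons, hvl, Nat.sub_self, List.getD_cons_zero]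
        rw [← hd1]
        congr 1
        omega

theorem step_down (hf : ∃ u, f a = a :: u) (v₁ v₂ : List A) (h1 : a ∉ v₁) (h2 : a ∉ v₂)
    (hne : v₁ ≠ v₂) (N : ℕ)
    (hq : Quasiperiodic (W a ((ap f)^[N] (a :: v₁)) ((ap f)^[N] (a :: v₂)))) :
    WeaklyQP f := by
  classical
  have hex : ∃ n, Quasiperiodic (W a ((ap f)^[n] (a :: v₁)) ((ap f)^[n] (a :: v₂))) := ⟨N, hq⟩
  have hmin := Nat.find_spec hex
  have hmin' : ∀ m < Nat.find hex, _ := fun m hm => Nat.find_min hex hm
  cases hn : Nat.find hex with
  | zero =>
    rw [hn] at hmin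
    exact absurd hmin (W_not_quasi a v₁ v₂ h1 h2 hne)
  | succ n =>
    rw [hn] at hmin
    refine ⟨_, _, hmin' n (by omega), ?_, hmin⟩
    rw [Function.iterate_succ_apply', Function.iterate_succ_apply']
    apply W_image
    · obtain ⟨u, hu⟩ := head_iter hf n v₂
      rw [hu]; simp
    · obtain ⟨u, hu⟩ := head_iter hf (n + 1) v₂
      rw [← Function.iterate_succ_apply' (ap f), hu]; simp

/-- If `f` generates the quasiperiodic word `w = f^ω(a)` and `f(a)` is not a power of `a`, then `f`
is weakly quasiperiodic on infinite words. -/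
theorem main (h : Generates f a w) (hq : Quasiperiodic w)
    (hna : ¬ ∃ k, f a = List.replicate k a) : WeaklyQP f := by
  obtain ⟨x, hx⟩ := hq
  have hinf := Covers.infinite_a h hx
  by_cases hA : ∃ v₁ v₂, Ret a w v₁ ∧ Ret a w v₂ ∧ v₁ ≠ v₂
  · obtain ⟨v₁, v₂, hv₁, hv₂, hne⟩ := hA
    obtain ⟨N, hN⟩ := h.2.1 x.length
    refine step_down h.1 v₁ v₂ hv₁.1 hv₂.1 hne N ⟨x, ?_⟩
    apply W_covers
    · obtain ⟨u, hu⟩ := head_iter h.1 N v₂
      rw [hu]; simp
    · exact block_cover h hx N hN v₁ v₂ hv₁
    · exact block_cover h hx N hN v₂ v₂ hv₂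
  · push Not at hA
    obtain ⟨v, hv, -, -⟩ := next_return hinf 0 h.zero
    have hper : ∀ k, w (k * (v.length + 1)) = a ∧
        ∀ i < v.length, w (k * (v.length + 1) + 1 + i) = v.getD i a := by
      intro k
      induction k with
      | zero =>
        rw [zero_mul]
        obtain ⟨v', hv', h1, h2⟩ := next_return hinf 0 h.zero
        obtain rfl := hA v' v hv' hv
        exact ⟨h.zero, fun i hi => (h1 i hi).symm⟩
      | succ k ih =>
        obtain ⟨v', hv', h1, h2⟩ := next_return hinf _ ih.1
        obtain rfl := hA v' v hv' hv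
        have e : k * (v'.length + 1) + 1 + v'.length = (k + 1) * (v'.length + 1) := by ring
        rw [e] at h2
        obtain ⟨v'', hv'', h3, h4⟩ := next_return hinf _ h2
        obtain rfl := hA v'' v' hv'' hv
        exact ⟨h2, fun i hi => (h3 i hi).symm⟩
    set L := v.length + 1 with hL
    have hL0 : 0 < L := by omega
    have hw : ∀ k j, j < L → w (k * L + j) = (a :: v).getD j a := by
      intro k j hj
      cases j with
      | zero => simp [(hper k).1]
      | succ j =>
        rw [List.getD_cons_succ, ← (hper k).2 j (by omega)]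
        congr 1
        omega
    have hshift : ∀ k i, w (k * L + i) = w i := by
      intro k i
      have hdm := Nat.div_add_mod i L
      rw [mul_comm] at hdm
      have e : k * L + i = (k + i / L) * L + i % L := by rw [add_mul]; omega
      rw [e, hw _ _ (Nat.mod_lt _ hL0)]
      conv_rhs => rw [← hdm]
      rw [hw _ _ (Nat.mod_lt _ hL0)]
    have hmod : ∀ i, w i = a → i % L = 0 := by
      intro i hi
      have hdm := Nat.div_add_mod i L
      rw [mul_comm] at hdm
      rw [← hdm, hw _ _ (Nat.mod_lt _ hL0)] at hi
      by_contra hne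
      obtain ⟨j, hj⟩ := Nat.exists_eq_succ_of_ne_zero hne
      have hjl : j < v.length := by have := Nat.mod_lt i hL0; omega
      rw [hj, Nat.succ_eq_add_one, List.getD_cons_succ, List.getD_eq_getElem _ _ hjl] at hi
      exact hv.1 (hi ▸ List.getElem_mem _)
    have hvne : v ≠ [] := by
      rintro rfl
      apply hna
      have h1 : IsPre a ((ap f)^[1] [a]) w := (isPre_iff a _ w).mpr (h.2.2 1)
      have h2 : (ap f)^[1] [a] = f a := by simp [ap]
      rw [h2] at h1
      refine ⟨(f a).length, ?_⟩
      apply List.ext_getElem (by simp)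
      intro i hi1 hi2
      have h3 := h1 i hi1
      rw [List.getD_eq_getElem _ _ hi1] at h3
      rw [h3, List.getElem_replicate]
      have := (hper i).1
      simpa [hL] using this
    obtain ⟨n, hn⟩ := h.2.1 L
    refine step_down h.1 v [] hv.1 (by simp) hvne n ?_
    set F := (ap f)^[n] [a] with hF
    set E := (ap f)^[n] (a :: v) with hE
    have hFpre : IsPre a F w := (isPre_iff a _ w).mpr (h.2.2 n)
    have hava : IsPre a ((a :: v) ++ [a]) w := by
      intro i hi
      simp only [List.length_append, List.length_cons, List.length_nil] at hi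
      rcases lt_or_ge i L with h1 | h1
      · rw [List.getD_append _ _ _ _ (by rw [List.length_cons]; exact h1)]
        have := hw 0 i h1
        rw [zero_mul, zero_add] at this
        exact this.symm
      · obtain rfl : i = L := by omega
        rw [List.getD_append_right _ _ _ _ (by simp [hL])]
        have := (hper 1).1
        rw [one_mul] at this
        rw [this]
        simp [hL]
    have hEF : IsPre a (E ++ F) w := by
      have := h.isPre_iter n hava
      rwa [iter_append] at this
    have hE0 : E.length % L = 0 := by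
      apply hmod
      have h1 := IsPre.right a hEF 0 (by omega)
      rw [add_zero] at h1
      rw [← h1]
      obtain ⟨u, hu⟩ := head_iter h.1 n ([] : List A)
      rw [hF, hu]
      simp
    -- the quasiperiod
    set q := F.length % L with hq
    have hFdm := Nat.div_add_mod F.length L
    have hk1 : 1 ≤ F.length / L := (Nat.one_le_div_iff hL0).mpr hn
    have hEdm := Nat.div_add_mod E.length L
    set k := F.length / L with hk
    set K := E.length / L with hK
    rw [hE0, add_zero] at hEdm
    have hylen : (pre w (L + q)).length = L + q := pre_length w _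
    have hqL : q < L := Nat.mod_lt _ hL0
    -- occurrences in prefixes of w
    have occ : ∀ (l : List A), IsPre a l w → ∀ j, j * L + (L + q) ≤ l.length →
        Occ a (pre w (L + q)) l (j * L) := by
      intro l hl j hj
      refine ⟨by rw [hylen]; exact hj, fun i hi => ?_⟩
      rw [hylen] at hi
      rw [hl _ (by omega), hshift, pre_getD a w _ i hi]
    refine ⟨pre w (L + q), W_covers a _ _ _ (List.length_pos_iff.mp (by omega)) ?_ ?_⟩
    · intro p hp
      have hdm := Nat.div_add_mod p L
      have hml := Nat.mod_lt p hL0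
      rw [mul_comm] at hdm
      have hlt : p / L < K := by
        rw [Nat.div_lt_iff_lt_mul hL0, mul_comm]
        omega
      refine ⟨p / L * L, by omega, by rw [hylen]; omega, occ _ hEF _ ?_⟩
      rw [List.length_append]
      have : (p / L + 1) * L ≤ K * L := Nat.mul_le_mul_right _ hlt
      have h3 : L * k ≥ L := by nlinarith
      rw [add_mul, one_mul] at this
      rw [mul_comm K L] at this
      omega
    · intro p hp
      have hdm := Nat.div_add_mod p L
      have hml := Nat.mod_lt p hL0
      rw [mul_comm] at hdm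
      -- use the occurrence at `min (p / L) (k - 1)`
      have hkey : ∀ j, j ≤ k - 1 → Occ a (pre w (L + q)) (F ++ F) (j * L) := by
        intro j hj
        have h1 : (j + 1) * L ≤ k * L := Nat.mul_le_mul_right _ (by omega)
        rw [add_mul, one_mul, mul_comm k L] at h1
        have h2 := occ F hFpre j (by omega)
        refine ⟨by rw [List.length_append]; have := h2.1; omega, fun i hi => ?_⟩
        rw [← h2.2 i hi, List.getD_append]
        have := h2.1
        omega
      rcases lt_or_ge (p / L) k with h1 | h1
      · exact ⟨p / L * L, by omega, by rw [hylen]; omega, hkey _ (by omega)⟩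
      · refine ⟨(k - 1) * L, ?_, ?_, hkey _ le_rfl⟩
        · have : (k - 1) * L ≤ p / L * L := Nat.mul_le_mul_right _ (by omega)
          omega
        · rw [hylen]
          have : (k - 1) * L + L = L * k := by
            obtain ⟨k', hk'⟩ := Nat.exists_eq_add_of_le hk1
            rw [hk']
            simp only [Nat.add_sub_cancel_left]
            ring
          omega

end main

/-- If `f` is a morphism and `a` a letter such that `f` generates the infinite word `w = f^ω(a)`,
`w` is quasiperiodic and `f(a)` is not a power of `a`, then `f` is weakly quasiperiodic on infinite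
words. -/
theorem result (A : Type) [Finite A] (f : A → List A) (a : A) (w : ℕ → A)
    (h : Generates f a w) (hq : Quasiperiodic w) (hna : ¬ ∃ k, f a = List.replicate k a) :
    WeaklyQP f :=
  main h hq hna

end Pool.Agent.Results.MP_c0e3d8_co.WeaklyQuasiperiodic
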